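import Mathlib

set_option autoImplicit false

namespace Pool.Agent.Results.MP_c05f88_an.Discrete

open Set Filter Topology Manifold

theorem result (E X : Type) [NormedAddCommGroup E] [NormedSpace ℂ E] [TopologicalSpace X]
    [T2Space X] [ChartedSpace E X] (Z : Set X)
    (hZ : ∀ σ : Z ≃ Z, ∃ F : X → X, MDifferentiable 𝓘(ℂ, E) 𝓘(ℂ, E) F ∧ ∀ z : Z, F z = σ z) :
    IsClosed Z ∧ DiscreteTopology Z := by
  rw [← isDiscrete_iff_discreteTopology, isClosed_and_discrete_iff]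
  intro p
  by_contra hp
  have hne : (𝓝[≠] p ⊓ 𝓟 Z).NeBot := ⟨fun h => hp (disjoint_iff.2 h)⟩
  let φ := chartAt E p
  have hφ : ContinuousAt φ p := φ.continuousAt (mem_chart_source E p)
  have pick : ∀ ε : ℝ, 0 < ε → ∃ z : Z, (z : X) ∈ φ.source ∧ (z : X) ≠ p ∧ ‖φ z - φ p‖ < ε := by
    intro ε hε
    have h1 : ∀ᶠ z in 𝓝 p, z ∈ φ.source ∧ ‖φ z - φ p‖ < ε := by
      filter_upwards [chart_source_mem_nhds E p, hφ (Metric.ball_mem_nhds _ hε)] with z a b
      exact ⟨a, by simpa [dist_eq_norm] using b⟩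
    have h2 : ∀ᶠ z in 𝓝[≠] p ⊓ 𝓟 Z, (z ∈ φ.source ∧ ‖φ z - φ p‖ < ε) ∧ z ≠ p ∧ z ∈ Z :=
      (h1.filter_mono (inf_le_left.trans nhdsWithin_le_nhds)).and
        (Filter.Eventually.and (p := fun z => z ≠ p) (q := fun z => z ∈ Z)
          (mem_inf_of_left self_mem_nhdsWithin) (mem_inf_of_right (mem_principal_self Z)))
    obtain ⟨z, a, b, c⟩ := h2.exists
    exact ⟨⟨z, c⟩, a.1, b, a.2⟩
  have pos : ∀ z : X, z ∈ φ.source → z ≠ p → 0 < ‖φ z - φ p‖ := fun z a b =>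
    norm_pos_iff.2 (sub_ne_zero.2 fun e => b (φ.injOn a (mem_chart_source E p) e))
  let T := {z : Z // (z : X) ∈ φ.source ∧ (z : X) ≠ p}
  have nxt : ∀ (n : ℕ) (z : T), ∃ w : T, ‖φ w.1 - φ p‖ < ‖φ z.1 - φ p‖ / (n + 2) := fun n z => by
    obtain ⟨w, a, b, c⟩ := pick _ (div_pos (pos _ z.2.1 z.2.2) (by positivity : (0 : ℝ) < n + 2))
    exact ⟨⟨w, a, b⟩, c⟩
  choose nx hnx using nxt
  obtain ⟨z0, a0, b0, c0⟩ := pick 1 one_pos
  let z : ℕ → T := fun n => Nat.rec ⟨z0, a0, b0⟩ nx n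
  let r : ℕ → ℝ := fun n => ‖φ (z n).1 - φ p‖
  have rpos : ∀ n, 0 < r n := fun n => pos _ (z n).2.1 (z n).2.2
  have rs : ∀ n, r (n + 1) < r n / (n + 2) := fun n => hnx n (z n)
  have ranti : StrictAnti r := strictAnti_nat_of_succ_lt fun n =>
    (rs n).trans (div_lt_self (rpos n) (by linarith [(Nat.cast_nonneg n : (0 : ℝ) ≤ n)]))
  have rle : ∀ n, r (n + 1) ≤ 1 / ((n : ℝ) + 1) := fun n => by
    have h1 : r n ≤ 1 := (ranti.antitone (Nat.zero_le n)).trans c0.le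
    refine (rs n).le.trans ?_
    have : (0 : ℝ) ≤ n := Nat.cast_nonneg n
    gcongr
    linarith
  have rt : Tendsto r atTop (𝓝 0) := (tendsto_add_atTop_iff_nat 1).1
    (squeeze_zero (fun n => (rpos (n + 1)).le) rle tendsto_one_div_add_atTop_nhds_zero_nat)
  have zt' : Tendsto (fun n => φ (z n).1) atTop (𝓝 (φ p)) := tendsto_iff_norm_sub_tendsto_zero.2 rt
  have zt : Tendsto (fun n => ((z n).1 : X)) atTop (𝓝 p) := by
    have := (φ.continuousAt_symm (φ.map_source (mem_chart_source E p))).tendsto.comp zt'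
    rw [φ.left_inv (mem_chart_source E p)] at this
    exact this.congr fun n => φ.left_inv (z n).2.1
  let ι : ℕ ↪ Z := ⟨fun n => (z n).1, fun a b h => ranti.injective (by
    change ‖φ (z a).1 - φ p‖ = ‖φ (z b).1 - φ p‖
    rw [show (z a).1 = (z b).1 from h])⟩
  let τ : Equiv.Perm ℕ := Function.Involutive.toPerm
    (fun n => if n % 2 = 0 then n + 1 else n - 1) (fun n => by
      dsimp only
      split_ifs <;> omega)
  obtain ⟨F, hF, hσ⟩ := hZ (τ.viaEmbedding ι)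
  have hFz : ∀ k, F (z (2 * k + 1)).1 = (z (2 * k)).1 := fun k => by
    have h1 := hσ (ι (2 * k + 1))
    rw [Equiv.Perm.viaEmbedding_apply] at h1
    have h2 : τ (2 * k + 1) = 2 * k := by
      change (if (2 * k + 1) % 2 = 0 then 2 * k + 1 + 1 else 2 * k + 1 - 1) = 2 * k
      split_ifs <;> omega
    rw [h2] at h1
    exact h1
  have t1 : Tendsto (fun k : ℕ => 2 * k + 1) atTop atTop :=
    tendsto_atTop_mono (fun k => by simp; omega) tendsto_id
  have t0 : Tendsto (fun k : ℕ => 2 * k) atTop atTop :=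
    tendsto_atTop_mono (fun k => by simp; omega) tendsto_id
  have Fp : F p = p := tendsto_nhds_unique
    ((hF p).continuousAt.tendsto.comp (zt.comp t1)) ((zt.comp t0).congr fun k => (hFz k).symm)
  have hd : DifferentiableAt ℂ (φ ∘ F ∘ φ.symm) (φ p) := by
    have := (hF p).differentiableWithinAt_writtenInExtChartAt
    simpa [writtenInExtChartAt, Fp, differentiableWithinAt_univ, φ] using this
  obtain ⟨L, hL⟩ := (hd.isBigO_sub.comp_tendsto (zt'.comp t1)).bound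
  obtain ⟨k, hk1, hk2⟩ := (hL.and (eventually_ge_atTop ⌈L⌉₊)).exists
  simp only [Function.comp, φ.left_inv (z _).2.1, φ.left_inv (mem_chart_source E p), hFz, Fp] at hk1
  change r (2 * k) ≤ L * r (2 * k + 1) at hk1
  have h3 := rs (2 * k)
  have h4 : L ≤ k := Nat.ceil_le.1 hk2
  have h5 := rpos (2 * k + 1)
  rw [lt_div_iff₀ (by positivity)] at h3
  push_cast at h3
  have : (0 : ℝ) ≤ k := Nat.cast_nonneg k
  nlinarith

end Pool.Agent.Results.MP_c05f88_an.Discrete
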